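import Mathlib

namespace Pool.Agent.H328R2.ABC

/-- Task S1: few fractions whose slopes are well separated. -/
theorem slope (S : Finset (ℕ × ℕ)) (Z M R : ℝ) (hZ : 0 < Z) (hM : 0 < M) (hR : 0 ≤ R)
    (hz : ∀ p ∈ S, Z ≤ (p.2 : ℝ) ∧ (p.2 : ℝ) ≤ 2 * Z)
    (h : ∀ p ∈ S, ∀ q ∈ S, p ≠ q →
      M ≤ |(p.1 : ℝ) * q.2 - (q.1 : ℝ) * p.2| ∧ |(p.1 : ℝ) * q.2 - (q.1 : ℝ) * p.2| ≤ R) :
    (S.card : ℝ) ≤ 1 + 4 * R / M := by
  classical
  have hRM : 0 ≤ 4 * R / M := by positivity
  rcases S.eq_empty_or_nonempty with hS | hS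
  · rw [hS]
    simp only [Finset.card_empty, Nat.cast_zero]
    linarith
  set s : ℕ × ℕ → ℝ := fun p => (p.1 : ℝ) / p.2 with hs
  set e : ℝ := M / (4 * Z ^ 2) with he
  have he0 : 0 < e := by positivity
  have hsep : ∀ p ∈ S, ∀ q ∈ S, p ≠ q → e ≤ |s p - s q| ∧ |s p - s q| ≤ R / Z ^ 2 := by
    intro p hp q hq hpq
    obtain ⟨h1, h2⟩ := h p hp q hq hpq
    obtain ⟨hp1, hp2⟩ := hz p hp
    obtain ⟨hq1, hq2⟩ := hz q hq
    have hp0 : (0 : ℝ) < p.2 := by linarith
    have hq0 : (0 : ℝ) < q.2 := by linarith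
    have e1 : |s p - s q| = |(p.1 : ℝ) * q.2 - (q.1 : ℝ) * p.2| / (p.2 * q.2) := by
      simp only [hs]
      rw [div_sub_div _ _ hp0.ne' hq0.ne', abs_div, abs_of_pos (mul_pos hp0 hq0)]
      congr 2
      ring
    rw [e1]
    constructor
    · rw [he]
      refine div_le_div₀ (abs_nonneg _) h1 (mul_pos hp0 hq0) ?_
      nlinarith
    · refine div_le_div₀ hR h2 (by positivity) ?_
      nlinarith
  obtain ⟨p0, hp0, hmin⟩ := Finset.exists_min_image S s hS
  have hd0 : ∀ p ∈ S, 0 ≤ s p - s p0 ∧ s p - s p0 ≤ R / Z ^ 2 := by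
    intro p hp
    have h0 := hmin p hp
    refine ⟨by linarith, ?_⟩
    by_cases hpp : p = p0
    · rw [hpp, sub_self]
      positivity
    · exact (le_abs_self _).trans (hsep p hp p0 hp0 hpp).2
  have hcard : S.card ≤ (Finset.range (⌊4 * R / M⌋₊ + 1)).card := by
    refine Finset.card_le_card_of_injOn (fun p => ⌊(s p - s p0) / e⌋₊) ?_ ?_
    · intro p hp
      have hp' : p ∈ S := hp
      rw [Finset.coe_range, Set.mem_Iio]
      refine Nat.lt_succ_of_le (Nat.floor_le_floor ?_)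
      rw [div_le_iff₀ he0]
      refine (hd0 p hp').2.trans (le_of_eq ?_)
      rw [he]
      field_simp
    · intro p hp q hq hpq
      have hp' : p ∈ S := hp
      have hq' : q ∈ S := hq
      by_contra hne
      have h1 := (hsep p hp' q hq' hne).1
      have a0 : 0 ≤ (s p - s p0) / e := div_nonneg (hd0 p hp').1 he0.le
      have b0 : 0 ≤ (s q - s p0) / e := div_nonneg (hd0 q hq').1 he0.le
      have a1 := Nat.floor_le a0
      have a2 := Nat.lt_floor_add_one ((s p - s p0) / e)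
      have b1 := Nat.floor_le b0
      have b2 := Nat.lt_floor_add_one ((s q - s p0) / e)
      simp only at hpq
      rw [hpq] at a1 a2
      have h3 : |(s p - s p0) / e - (s q - s p0) / e| < 1 := by
        rw [abs_lt]
        constructor <;> linarith
      rw [← sub_div, abs_div, abs_of_pos he0, div_lt_one he0] at h3
      have h4 : s p - s p0 - (s q - s p0) = s p - s q := by ring
      rw [h4] at h3
      linarith
  rw [Finset.card_range] at hcard
  calc (S.card : ℝ) ≤ ((⌊4 * R / M⌋₊ + 1 : ℕ) : ℝ) := by exact_mod_cast hcard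
    _ = (⌊4 * R / M⌋₊ : ℝ) + 1 := by push_cast; ring
    _ ≤ 4 * R / M + 1 := by linarith [Nat.floor_le hRM]
    _ = _ := by ring

end Pool.Agent.H328R2.ABC
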